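import Pool.Agent.H920R2.Mf2

set_option autoImplicit false

namespace Pool.Agent.Results.MP_ca606e_nt.OrderSeven

open Pool.Agent.H920R2.Mf

/-- The rows of the list: the end point rows are added first and last. -/
def rows (L : List Entry) : List (ℤ × ℤ × ℤ) :=
  (0, 1, 0) :: (L.map Prod.fst ++ [(0, 0, 1)])

/-- The determinant of three rows. -/
def det3 (r s t : ℤ × ℤ × ℤ) : ℤ :=
  Matrix.det !![r.1, r.2.1, r.2.2; s.1, s.2.1, s.2.2; t.1, t.2.1, t.2.2]

/-- Mahler's determinant property fails for `n = 7`: three consecutive rows have determinant `-2`. -/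
theorem result :
    (∀ n : ℕ, ∃ L, IsMahlerList n L) ∧
    ∀ L, IsMahlerList 7 L →
      [((7 : ℤ), (-6 : ℤ), (1 : ℤ)), (6, 3, -1), (7, 7, -2)] <:+: rows L ∧
      det3 (7, -6, 1) (6, 3, -1) (7, 7, -2) = -2 := by
  refine ⟨exists_list, fun L hL => ⟨?_, ?_⟩⟩
  · obtain ⟨s, t, h⟩ := infix_seven L hL
    refine ⟨(0, 1, 0) :: s.map Prod.fst, t.map Prod.fst ++ [(0, 0, 1)], ?_⟩
    rw [rows, ← h]
    simp [e1, e2, e3]
  · simp [det3, Matrix.det_fin_three]

end Pool.Agent.Results.MP_ca606e_nt.OrderSeven
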